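import Pool.Agent.H242.GX.Stm5

set_option autoImplicit false

open Set Filter Topology
open scoped ContDiff

namespace Pool.Agent.H763.GXDE

open Pool.Agent.H242.GX

lemma smd {f : ℝ → ℝ} (hf : ContDiff ℝ ∞ f) : ContDiff ℝ ∞ (deriv f) :=
  (contDiff_infty_iff_deriv.1 hf).2

/-- The polynomial identity, after division by `m³`. -/
lemma poly_id (m m1 m2 m3 u v w w1 w2 w3 k : ℝ) (hm : m ≠ 0)
    (h3 : -(m * w1 / 6 + m1 * w / 2) = -k * (-(m * w / 2)))
    (h5 : -(m * w3 / 120 + m1 * w2 / 24 + m2 * w1 / 12 + m3 * w / 12 - u * w * w1 / 6 - v * w ^ 2 / 4)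
      = k ^ 3 * (-(m * w / 2)) -
        2 * k * (-(m * w2 / 24 + m1 * w1 / 6 + m2 * w / 4 - u * w ^ 2 / 4))) :
    9 * w ^ 2 * w3 - 30 * w * w1 * w2 + 20 * w1 ^ 3 =
      (45 * (m1 / m)) * (w ^ 2 * w2) + (-60 * (m1 / m)) * (w * w1 ^ 2)
        + (90 * (m2 / m) - 180 * (m1 / m) ^ 2) * (w ^ 2 * w1)
        + (540 * (m1 / m) * (m2 / m) - 90 * (m3 / m) - 540 * (m1 / m) ^ 3
            + 270 * (v / m) * w - 540 * (m1 / m) * (u / m) * w) * w ^ 3 := by
  have key : m ^ 3 * (9 * w ^ 2 * w3 - 30 * w * w1 * w2 + 20 * w1 ^ 3) =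
      45 * m ^ 2 * m1 * (w ^ 2 * w2) - 60 * m ^ 2 * m1 * (w * w1 ^ 2)
        + (90 * m ^ 2 * m2 - 180 * m * m1 ^ 2) * (w ^ 2 * w1)
        + (540 * m * m1 * m2 - 90 * m ^ 2 * m3 - 540 * m1 ^ 3
            + 270 * m ^ 2 * v * w - 540 * m * m1 * u * w) * w ^ 3 := by
    have e3 : m * w1 / 6 + m1 * w / 2 = -k * (m * w / 2) := by linarith
    have e5 : m * w3 / 120 + m1 * w2 / 24 + m2 * w1 / 12 + m3 * w / 12 - u * w * w1 / 6
        - v * w ^ 2 / 4 = k ^ 3 * (m * w / 2) -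
        2 * k * (m * w2 / 24 + m1 * w1 / 6 + m2 * w / 4 - u * w ^ 2 / 4) := by linarith
    have e : (m * w / 2) ^ 2 * (m * w3 / 120 + m1 * w2 / 24 + m2 * w1 / 12 + m3 * w / 12
          - u * w * w1 / 6 - v * w ^ 2 / 4)
        - 2 * (m * w / 2) * (m * w1 / 6 + m1 * w / 2) *
          (m * w2 / 24 + m1 * w1 / 6 + m2 * w / 4 - u * w ^ 2 / 4)
        + (m * w1 / 6 + m1 * w / 2) ^ 3 = 0 := by
      rw [e3, e5]; ring
    linear_combination 4320 * e
  have hm3 : m ^ 3 ≠ 0 := pow_ne_zero 3 hm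
  apply mul_left_cancel₀ hm3
  rw [key]
  field_simp
  ring

theorem gx_DE (hEXP : S_EXP) (hJET : S_JET) : S_DE := by
  intro g N δ hG
  obtain ⟨m, m₂, hm, hm₂, hmN, hexp⟩ := hEXP g N hG.smg hG.smN hG.zero
  obtain ⟨w, hw⟩ : ∃ w, w = deriv (deriv g) := ⟨_, rfl⟩
  have hex := hexp w hw
  rw [← hw]
  have hδ := hG.pos
  have sw : ContDiff ℝ ∞ w := by rw [hw]; exact smd (smd hG.smg)
  have cm := hm.continuous
  have cm1 := (smd hm).continuous
  have cm2 := (smd (smd hm)).continuous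
  have cm3 := (smd (smd (smd hm))).continuous
  have cu := hm₂.continuous
  have cv := (smd hm₂).continuous
  have cw := sw.continuous
  have hne : ∀ t ∈ Icc (0 : ℝ) (δ / 2), m t ≠ 0 := by
    intro t ht
    rw [hmN t]
    apply hG.reg
    rw [abs_of_nonneg ht.1]
    have := ht.2
    linarith
  have ctn : ∀ f : ℝ → ℝ, Continuous f → ContinuousOn (fun t => f t / m t) (Icc (0 : ℝ) (δ / 2)) :=
    fun f hf => hf.continuousOn.div cm.continuousOn hne
  have c1 := ctn _ cm1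
  have c2 := ctn _ cm2
  have c3 := ctn _ cm3
  have cu' := ctn _ cu
  have cv' := ctn _ cv
  have cwo : ContinuousOn w (Icc (0 : ℝ) (δ / 2)) := cw.continuousOn
  obtain ⟨M1, hM1⟩ := isCompact_Icc.exists_bound_of_continuousOn
    (f := fun t => 45 * (deriv m t / m t)) (s := Icc (0 : ℝ) (δ / 2)) (by fun_prop)
  obtain ⟨M2, hM2⟩ := isCompact_Icc.exists_bound_of_continuousOn
    (f := fun t => -60 * (deriv m t / m t)) (s := Icc (0 : ℝ) (δ / 2)) (by fun_prop)
  obtain ⟨M3, hM3⟩ := isCompact_Icc.exists_bound_of_continuousOn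
    (f := fun t => 90 * (deriv (deriv m) t / m t) - 180 * (deriv m t / m t) ^ 2)
    (s := Icc (0 : ℝ) (δ / 2)) (by fun_prop)
  obtain ⟨M4, hM4⟩ := isCompact_Icc.exists_bound_of_continuousOn
    (f := fun t => 540 * (deriv m t / m t) * (deriv (deriv m) t / m t)
      - 90 * (deriv (deriv (deriv m)) t / m t) - 540 * (deriv m t / m t) ^ 3
      + 270 * (deriv m₂ t / m t) * w t - 540 * (deriv m t / m t) * (m₂ t / m t) * w t)
    (s := Icc (0 : ℝ) (δ / 2)) (by fun_prop)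
  refine ⟨δ / 2, |M1| + |M2| + |M3| + |M4|, by linarith, by linarith, ?_⟩
  intro t ht0 ht1
  have htI : t ∈ Icc (0 : ℝ) (δ / 2) := ⟨ht0.le, ht1.le⟩
  obtain ⟨C, hC⟩ := hex t
  obtain ⟨k, r, hr, hinv⟩ := hG.inv t ht0 (by linarith)
  obtain ⟨a, ha⟩ : ∃ a : ℕ → ℝ, a = fun j => match j with
    | 0 => 0
    | 1 => 0
    | 2 => -(m t * w t / 2)
    | 3 => -(m t * deriv w t / 6 + deriv m t * w t / 2)
    | 4 => -(m t * deriv (deriv w) t / 24 + deriv m t * deriv w t / 6 + deriv (deriv m) t * w t / 4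
            - m₂ t * w t ^ 2 / 4)
    | 5 => -(m t * deriv (deriv (deriv w)) t / 120 + deriv m t * deriv (deriv w) t / 24
            + deriv (deriv m) t * deriv w t / 12
            + deriv (deriv (deriv m)) t * w t / 12 - m₂ t * w t * deriv w t / 6
            - deriv m₂ t * w t ^ 2 / 4)
    | _ => 0 := ⟨_, rfl⟩
  have a0 : a 0 = 0 := congrFun ha 0
  have a1 : a 1 = 0 := congrFun ha 1
  have a2 : a 2 = -(m t * w t / 2) := congrFun ha 2
  have a3 : a 3 = -(m t * deriv w t / 6 + deriv m t * w t / 2) := congrFun ha 3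
  have a4 : a 4 = -(m t * deriv (deriv w) t / 24 + deriv m t * deriv w t / 6
            + deriv (deriv m) t * w t / 4 - m₂ t * w t ^ 2 / 4) := congrFun ha 4
  have a5 : a 5 = -(m t * deriv (deriv (deriv w)) t / 120 + deriv m t * deriv (deriv w) t / 24
            + deriv (deriv m) t * deriv w t / 12
            + deriv (deriv (deriv m)) t * w t / 12 - m₂ t * w t * deriv w t / 6
            - deriv m₂ t * w t ^ 2 / 4) := congrFun ha 5
  obtain ⟨-, h3, h5⟩ := hJET.1 (fun s => N (t + s, g t + deriv g t * s - g (t + s))) a k (min r 1) C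
    (lt_min hr one_pos) (by
      intro s hs
      have hs1 : |s| ≤ 1 := (hs.trans_le (min_le_right _ _)).le
      have h := hC s hs1
      have e : ∑ j ∈ Finset.range 6, a j * s ^ j =
        (- (m t * w t / 2) * s ^ 2
        - (m t * deriv w t / 6 + deriv m t * w t / 2) * s ^ 3
        - (m t * deriv (deriv w) t / 24 + deriv m t * deriv w t / 6 + deriv (deriv m) t * w t / 4 - m₂ t * w t ^ 2 / 4) * s ^ 4
        - (m t * deriv (deriv (deriv w)) t / 120 + deriv m t * deriv (deriv w) t / 24 + deriv (deriv m) t * deriv w t / 12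
            + deriv (deriv (deriv m)) t * w t / 12 - m₂ t * w t * deriv w t / 6 - deriv m₂ t * w t ^ 2 / 4) * s ^ 5) := by
        simp only [Finset.sum_range_succ, Finset.sum_range_zero, a0, a1, a2, a3, a4, a5]
        ring
      rw [e]
      exact h) (by
      intro s hs
      exact hinv s (hs.trans_le (min_le_left _ _)))
  rw [a2, a3] at h3
  rw [a5, a2, a4] at h5
  have hid := poly_id (m t) (deriv m t) (deriv (deriv m) t) (deriv (deriv (deriv m)) t) (m₂ t)
    (deriv m₂ t) (w t) (deriv w t) (deriv (deriv w) t) (deriv (deriv (deriv w)) t) k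
    (hne t htI) h3 h5
  rw [hid]
  have b1 : ∀ (c M x : ℝ), |c| ≤ M → |c * x| ≤ |M| * |x| := by
    intro c M x h
    rw [abs_mul]
    exact mul_le_mul_of_nonneg_right (h.trans (le_abs_self M)) (abs_nonneg x)
  have t1 := b1 _ M1 (w t ^ 2 * deriv (deriv w) t) (hM1 t htI)
  have t2 := b1 _ M2 (w t * deriv w t ^ 2) (hM2 t htI)
  have t3 := b1 _ M3 (w t ^ 2 * deriv w t) (hM3 t htI)
  have t4 := b1 _ M4 (w t ^ 3) (hM4 t htI)
  have tri : ∀ a b c d : ℝ, |a + b + c + d| ≤ |a| + |b| + |c| + |d| := by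
    intro a b c d
    have q1 := abs_add_le (a + b + c) d
    have q2 := abs_add_le (a + b) c
    have q3 := abs_add_le a b
    linarith
  refine (tri _ _ _ _).trans ?_
  refine (add_le_add (add_le_add (add_le_add t1 t2) t3) t4).trans ?_
  clear t1 t2 t3 t4 hid h3 h5 hC hinv hexp hex
  have n1 := abs_nonneg (w t ^ 2 * deriv (deriv w) t)
  have n2 := abs_nonneg (w t * deriv w t ^ 2)
  have n3 := abs_nonneg (w t ^ 2 * deriv w t)
  have n4 := abs_nonneg (w t ^ 3)
  have p1 := abs_nonneg M1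
  have p2 := abs_nonneg M2
  have p3 := abs_nonneg M3
  have p4 := abs_nonneg M4
  nlinarith [mul_nonneg p1 n2, mul_nonneg p1 n3, mul_nonneg p1 n4, mul_nonneg p2 n1, mul_nonneg p2 n3,
    mul_nonneg p2 n4, mul_nonneg p3 n1, mul_nonneg p3 n2, mul_nonneg p3 n4, mul_nonneg p4 n1,
    mul_nonneg p4 n2, mul_nonneg p4 n3]

end Pool.Agent.H763.GXDE
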